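import Pool.Agent.U469.RT.Stm

/-!
# Project RT, package SPL: splitting into `2 m + 1` groups with comparable sums
-/

set_option autoImplicit false

open Finset

namespace Pool.Agent.U399.RT.SPL

open Pool.Agent.U469.RT

lemma split {ι : Type} [DecidableEq ι] (x : ι → ℝ) (M : ℝ) (k : ℕ) (hk : 0 < k) (hx : ∀ i, 0 ≤ x i)
    (hM0 : 0 ≤ M) (J : Finset ι) (hM : ∀ i ∈ J, x i ≤ M) :
    ∃ φ : ι → Fin k, ∀ a b, ∑ i ∈ J, (if φ i = a then x i else 0) ≤
      ∑ i ∈ J, (if φ i = b then x i else 0) + M := by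
  induction J using Finset.induction_on with
  | empty =>
    refine ⟨fun _ => ⟨0, hk⟩, fun a b => ?_⟩
    simpa using hM0
  | insert j J hj ih =>
    obtain ⟨φ, hφ⟩ := ih fun i hi => hM i (Finset.mem_insert_of_mem hi)
    have : Nonempty (Fin k) := ⟨⟨0, hk⟩⟩
    obtain ⟨a0, -, ha0⟩ := Finset.exists_min_image (Finset.univ : Finset (Fin k))
      (fun a => ∑ i ∈ J, (if φ i = a then x i else 0)) Finset.univ_nonempty
    have key : ∀ a, ∑ i ∈ insert j J, (if Function.update φ j a0 i = a then x i else 0) =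
        (if a0 = a then x j else 0) + ∑ i ∈ J, (if φ i = a then x i else 0) := by
      intro a
      rw [Finset.sum_insert hj, Function.update_self]
      congr 1
      refine Finset.sum_congr rfl fun i hi => ?_
      rw [Function.update_of_ne (ne_of_mem_of_not_mem hi hj)]
    refine ⟨Function.update φ j a0, fun a b => ?_⟩
    rw [key, key]
    have h1 := ha0 b (Finset.mem_univ _)
    have h2 := hφ a b
    have h3 := hM j (Finset.mem_insert_self _ _)
    have h4 := hx j
    have h5 : (0 : ℝ) ≤ if a0 = b then x j else 0 := by split_ifs <;> simp [h4]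
    by_cases h : a0 = a
    · subst h
      rw [if_pos rfl]
      linarith
    · rw [if_neg h]
      linarith

theorem t_SPL : S_SPL := by
  intro ι _ x m I Top S hx hTI hcard hle hSI hScard
  have hne : Top.Nonempty := Finset.card_pos.mp (by omega)
  obtain ⟨t0, ht0, hmin⟩ := Finset.exists_min_image Top x hne
  have hMJ : ∀ i ∈ (I \ Top) \ S, x i ≤ x t0 := fun i hi => hle i (Finset.mem_sdiff.mp hi).1 t0 ht0
  obtain ⟨φ, hφ⟩ := split x (x t0) (2 * m + 1) (by omega) hx (hx t0) ((I \ Top) \ S) hMJ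
  have hsum : ∀ b : Fin (2 * m + 1), ∑ i ∈ (I \ Top) \ S, x i ≤
      (2 * m + 1) * (∑ i ∈ (I \ Top) \ S, (if φ i = b then x i else 0) + x t0) := by
    intro b
    have e : ∑ i ∈ (I \ Top) \ S, x i =
        ∑ a : Fin (2 * m + 1), ∑ i ∈ (I \ Top) \ S, (if φ i = a then x i else 0) := by
      rw [Finset.sum_comm]
      refine Finset.sum_congr rfl fun i _ => ?_
      simp
    rw [e]
    refine (Finset.sum_le_card_nsmul _ _ _ fun a _ => hφ a b).trans (le_of_eq ?_)
    simp only [Finset.card_univ, Fintype.card_fin, nsmul_eq_mul]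
    push_cast
    ring
  have hc : 2 * m + 1 ≤ (Top \ S).card := by
    have := Finset.le_card_sdiff S Top
    omega
  let t : Fin (2 * m + 1) → ι := fun g => ((Top \ S).equivFin.symm (Fin.castLE hc g)).1
  have htmem : ∀ g, t g ∈ Top \ S := fun g => ((Top \ S).equivFin.symm (Fin.castLE hc g)).2
  have htinj : Function.Injective t := by
    intro g g' h
    have h1 := Subtype.ext h
    have h2 := (Top \ S).equivFin.symm.injective h1
    exact Fin.castLE_injective hc h2
  have htJ : ∀ g, t g ∉ (I \ Top) \ S := by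
    intro g h
    exact (Finset.mem_sdiff.mp (Finset.mem_sdiff.mp h).1).2 (Finset.mem_sdiff.mp (htmem g)).1
  refine ⟨fun g => insert (t g) (((I \ Top) \ S).filter fun i => φ i = g), ?_, ?_, ?_⟩
  · intro g i hi
    rcases Finset.mem_insert.mp hi with rfl | hi
    · have := Finset.mem_sdiff.mp (htmem g)
      exact Finset.mem_sdiff.mpr ⟨hTI this.1, this.2⟩
    · have h1 := Finset.mem_sdiff.mp (Finset.mem_filter.mp hi).1
      exact Finset.mem_sdiff.mpr ⟨(Finset.mem_sdiff.mp h1.1).1, h1.2⟩
  · intro g g' hgg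
    rw [Finset.disjoint_left]
    intro i hi hi'
    rcases Finset.mem_insert.mp hi with h | h
    · rcases Finset.mem_insert.mp hi' with h' | h'
      · exact hgg (htinj (h.symm.trans h'))
      · exact htJ g (h ▸ (Finset.mem_filter.mp h').1)
    · rcases Finset.mem_insert.mp hi' with h' | h'
      · exact htJ g' (h' ▸ (Finset.mem_filter.mp h).1)
      · exact hgg ((Finset.mem_filter.mp h).2.symm.trans (Finset.mem_filter.mp h').2)
  · intro g
    rw [Finset.sum_insert (fun h => htJ g (Finset.mem_filter.mp h).1), Finset.sum_filter]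
    have h1 := hsum g
    have h2 : x t0 ≤ x (t g) := hmin _ (Finset.mem_sdiff.mp (htmem g)).1
    have h3 : ∑ i ∈ (I \ Top) ∩ S, x i ≤ m * x t0 := by
      refine (Finset.sum_le_card_nsmul _ _ _ fun i hi =>
        hle i (Finset.mem_inter.mp hi).1 t0 ht0).trans ?_
      rw [nsmul_eq_mul]
      refine mul_le_mul_of_nonneg_right ?_ (hx t0)
      exact_mod_cast (Finset.card_le_card Finset.inter_subset_right).trans hScard.le
    have h4 := Finset.sum_inter_add_sum_sdiff (I \ Top) S x
    have h5 : 0 ≤ ∑ i ∈ (I \ Top) \ S, (if φ i = g then x i else 0) :=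
      Finset.sum_nonneg fun i _ => by split_ifs <;> simp [hx i]
    have hm : (0 : ℝ) ≤ m := Nat.cast_nonneg m
    have h6 : (3 * (m : ℝ) + 1) * x t0 ≤ (3 * m + 1) * x (t g) :=
      mul_le_mul_of_nonneg_left h2 (by positivity)
    have h7 : 0 ≤ (m : ℝ) * ∑ i ∈ (I \ Top) \ S, (if φ i = g then x i else 0) := mul_nonneg hm h5
    nlinarith [h1, h3, h4, h6, h7]

end Pool.Agent.U399.RT.SPL
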